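import Pool.Agent.U918.LP.Core

/-!
# Primes `p` with all the numbers `p² + b_i p + k_i` prime, for almost all `k`, with arbitrary weights on the primes `p`

Let `b₁, …, b_r ≥ 0` be given integers (`b_i = 1` in the question) and let `w` be ANY bounded real weight on the primes
`p ≤ X`, for example the indicator of an arbitrary set of primes. For all but a share `log ^ (-U) X` of the vectors
`(k₁, …, k_r)` of integers `1 ≤ k_i ≤ B X²`, the sum of `w p` over the primes `p` for which all the numbers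
`p² + b_i p + k_i` are prime is the sum of `w p ∏ 1 / (V z log (p² + b_i p + k_i))` over the primes `p` for which all
the numbers `p² + b_i p + k_i` are free of primes `≤ z`, up to an error `X / log ^ D X`; here `z` is a power of
`log X`, `V z = ∏_{l ≤ z} (1 - 1/l)`, and this holds simultaneously for all initial intervals `p ≤ y`, `y ≤ X`, and all
residue classes of `p` to all moduli up to `log ^ K X`.
-/

set_option autoImplicit false

open Finset

namespace Pool.Agent.Results.MP_82233c_nt.ArbitraryWeights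

/-- the product of `1 - 1/l` over the primes `l ≤ z` -/
noncomputable def V (z : ℕ) : ℝ := ∏ l ∈ (Icc 1 z).filter Nat.Prime, (1 - 1 / (l : ℝ))

open Classical in
/-- the sum of `w p` over the primes `p ≤ y`, `p ≡ a mod q`, for which all the numbers `p² + b i p + k i` are prime -/
noncomputable def primeSum {r : ℕ} (b : Fin r → ℕ) (w : ℕ → ℝ) (k : Fin r → ℕ) (q a y : ℕ) : ℝ :=
  ∑ p ∈ (Icc 1 y).filter (fun p => p.Prime ∧ p ≡ a [MOD q] ∧ ∀ i, (p ^ 2 + b i * p + k i).Prime), w p

open Classical in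
/-- the sum of `w p / ∏ (V z · log (p² + b i p + k i))` over the primes `p ≤ y`, `p ≡ a mod q`, for which no prime
`l ≤ z` divides any of the numbers `p² + b i p + k i` -/
noncomputable def modelSum {r : ℕ} (b : Fin r → ℕ) (z : ℕ) (w : ℕ → ℝ) (k : Fin r → ℕ) (q a y : ℕ) : ℝ :=
  ∑ p ∈ (Icc 1 y).filter (fun p => p.Prime ∧ p ≡ a [MOD q] ∧
    ∀ i, ∀ l : ℕ, l.Prime → l ≤ z → ¬ l ∣ p ^ 2 + b i * p + k i),
    w p * ∏ i, (V z * Real.log ((p ^ 2 + b i * p + k i : ℕ) : ℝ))⁻¹

open Classical in
/-- **The theorem.** For all `r`, `b i`, `B`, `U`, `D`, `K` there is `B₀` such that for every `E`, every large `X`,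
every integer `z` with `log ^ B₀ X ≤ z ≤ log ^ E X` and EVERY weight `w` with `|w p| ≤ 1`: for all but at most
`X ^ (2 r) / log ^ U X` of the vectors `k` of integers `1 ≤ k i ≤ B X²`, one has for all `y ≤ X`, all moduli
`1 ≤ q ≤ log ^ K X` and all classes `a` that `primeSum b w k q a y` and `modelSum b z w k q a y` differ by at most
`X / log ^ D X`. -/
theorem result (r : ℕ) (b : Fin r → ℕ) (B U D K : ℕ) :
    ∃ B₀ : ℕ, ∀ E : ℕ, ∃ X₀ : ℕ, ∀ X : ℕ, X₀ ≤ X → ∀ z : ℕ, Real.log X ^ B₀ ≤ z → (z : ℝ) ≤ Real.log X ^ E →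
    ∀ w : ℕ → ℝ, (∀ p, |w p| ≤ 1) →
    (((Fintype.piFinset (fun _ : Fin r => Icc 1 (B * X ^ 2))).filter (fun k =>
      ∃ y ≤ X, ∃ q a : ℕ, 1 ≤ q ∧ (q : ℝ) ≤ Real.log X ^ K ∧
        (X : ℝ) / Real.log X ^ D < |primeSum b w k q a y - modelSum b z w k q a y|)).card : ℝ) ≤
      (X : ℝ) ^ (2 * r) / Real.log X ^ U := by
  have hdeg : ∀ c : ℕ, (Polynomial.X ^ 2 + Polynomial.C (c : ℤ) * Polynomial.X : Polynomial ℤ).natDegree = 2 := by
    intro c
    compute_degree!
  obtain ⟨B₀, h0⟩ := Pool.Agent.U918.LP.core r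
    (fun i => (Polynomial.X ^ 2 + Polynomial.C (b i : ℤ) * Polynomial.X : Polynomial ℤ))
    (fun i => by rw [hdeg]; norm_num) (fun i => by rw [Polynomial.leadingCoeff, hdeg]; simp)
    (fun i m => m ^ 2 + b i * m) (fun i m => by simp) (fun i u v huv => by dsimp only; gcongr) (fun _ => true) B U D K
  refine ⟨B₀, fun E => ?_⟩
  obtain ⟨x0, hx0⟩ := h0 E
  refine ⟨x0, fun X hX z hz1 hz2 w hw => ?_⟩
  have key := hx0 X hX z hz1 hz2 (fun m => if m.Prime then w m else 0) (fun m => by

    split_ifs
    · exact hw m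
    · simp)
  simp only [hdeg] at key
  rw [prod_const, card_univ, Fintype.card_fin, ← pow_mul] at key
  have e1 : ∀ (k : Fin r → ℕ) (q a y : ℕ), primeSum b w k q a y = Pool.Agent.U918.LP.PS (fun _ => true)
      (fun i m => m ^ 2 + b i * m) (fun m => if m.Prime then w m else 0) k q a y := by
    intro k q a y
    unfold primeSum Pool.Agent.U918.LP.PS Pool.Agent.U918.LP.va
    simp only [if_true]
    rw [← sum_filter, filter_filter]
    apply sum_congr _ (fun _ _ => rfl)
    apply filter_congr
    intro m _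
    tauto
  have e2 : ∀ (k : Fin r → ℕ) (q a y : ℕ), modelSum b z w k q a y = Pool.Agent.U918.LP.MS (fun _ => true)
      (fun i m => m ^ 2 + b i * m) z (fun m => if m.Prime then w m else 0) k q a y := by
    intro k q a y
    unfold modelSum Pool.Agent.U918.LP.MS Pool.Agent.U918.LP.va
    simp only [if_true, ite_mul, zero_mul]
    rw [← sum_filter, filter_filter]
    apply sum_congr _ (fun _ _ => rfl)
    apply filter_congr
    intro m _
    tauto
  simp only [e1, e2]
  exact key

end Pool.Agent.Results.MP_82233c_nt.ArbitraryWeights
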