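import Mathlib
import Pool.Agent.U288.RO.O1
import Pool.Agent.R498.MP.LinC

/-!
# Primes `p` with almost prime `p ^ 2 + p + 1` in every interval `(N, 2 N]`: the images of sparse patterns

For `1 ≤ u ≤ U` and `ρ < u` we consider the primes whose index is `ρ` modulo `u`; for `u = 1` these are all primes. Fix the
number `k` of the coordinates, `L` and `U`. For all large `X` and ANY `L` injective maps `φ_1, ..., φ_L` from `{0, ..., X}`
to the integers, for ALL large `N` a positive proportion of the vectors `0 < h_1 < ... < h_k ≤ X` for which all `h_j` and all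
`h_j - h_i` are shifted primes has the property: for ALL `u ≤ U`, ALL `ρ < u`, ALL `j ≤ L` and ALL nonempty
`T ⊆ {h_1, ..., h_k}` there are `m` such that the numbers `m + φ_j(t)`, `t ∈ T`, are primes in `(N, 2 N]`, namely consecutive
terms of the sequence of the primes with index `ρ` modulo `u`, and `p ^ 2 + p + 1` is an almost prime for each of them; these
`m` can be taken to form a progression of any given length with difference at most a power of `log N`. The proportion and
the order of the almost primes do not depend on the maps, nor on `N`.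

Proof. By the theorem `Pool.Agent.R498.MP.stringsCR` of the starting files every set of `K₁` integers contains the pattern of
a string of `U k` consecutive primes `p` with almost prime `p ^ 2 + p + 1`; by van der Waerden's theorem the index of the
first of them is in a fixed class modulo `u` along a progression, and we keep every `u`-th prime, starting at the right
index (`Nx.base_D`). By Ramsey's theorem every set of `K` integers up to `X` contains `k + 1` elements `s_0 < ... < s_k`
such that all the images of all the nonempty parts of `{s_1 - s_0, ..., s_k - s_0}` occur, for all `u, ρ` (`Nx.hered`). A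
family of patterns which is met by every set of `K` integers contains a positive proportion of the patterns made of shifted
primes (`Pool.Agent.U288.SP.principle`: counts of the configurations of `K` points and of pairs of them, and the inequality
of Cauchy and Schwarz).
-/

set_option autoImplicit false

namespace Pool.Agent.Results.MP_82233c_nt.ImagesInEveryInterval

open Filter Finset

/-- `x ^ 2 + x + 1` has at most `r` prime factors, counted with multiplicity, all of them at least `w` -/
def AlmostPrimeValue (r : ℕ) (w : ℝ) (x : ℤ) : Prop :=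
  (x ^ 2 + x + 1).natAbs.primeFactorsList.length ≤ r ∧ ∀ p : ℕ, p.Prime → (p : ℤ) ∣ x ^ 2 + x + 1 → w ≤ p

open Classical in
/-- the vectors `0 = h 0 < h 1 < ... < h k ≤ X`; if `σ ≠ 0`, those with `h j - h i + σ` prime for all `0 ≤ i < j ≤ k` -/
noncomputable def patterns (k : ℕ) (σ : ℤ) (X : ℕ) : Finset (Fin (k + 1) → ℕ) :=
  (Fintype.piFinset (fun _ : Fin (k + 1) => range (X + 1))).filter (fun h => h 0 = 0 ∧ StrictMono h ∧
    ∀ i j, i < j → σ ≠ 0 → ((h j : ℤ) - h i + σ).toNat.Prime)

/-- the number of the conditions -/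
def edges (k : ℕ) (σ : ℤ) : ℕ := if σ = 0 then 0 else k * (k + 1) / 2

/-- There is a progression of `l` terms `m' = m + i d`, `0 ≤ i < l`, with difference `1 ≤ d ≤ (log N) ^ B`, such that for
each of them: the integers `x = m' + y`, `y ∈ V`, are in `(N, 2 N]` and `≡ a (mod q)`, the numbers `x ^ 2 + x + 1` are
almost primes, and the `x` are the primes with the indices `u t + ρ, u (t + 1) + ρ, ..., u (t + |V| - 1) + ρ` for some `t`
(the prime `2` has index `0`). -/
def Occurs (u ρ q a r : ℕ) (w : ℝ) (l B N : ℕ) (V : Finset ℤ) : Prop :=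
  ∃ (m : ℤ) (d : ℕ), 1 ≤ d ∧ (d : ℝ) ≤ Real.log N ^ B ∧ ∀ i < l,
    (∀ y ∈ V, (N : ℤ) < m + i * d + y ∧ m + i * d + y ≤ 2 * N ∧ m + i * d + y ≡ a [ZMOD q] ∧
      AlmostPrimeValue r w (m + i * d + y)) ∧
    ∃ t : ℕ, V.image (fun y => m + i * d + y) =
      (range V.card).image (fun j => ((Nat.nth Nat.Prime (u * (t + j) + ρ) : ℕ) : ℤ))

/-- the set `{h 1, ..., h k}` -/
def points {k : ℕ} (h : Fin (k + 1) → ℕ) : Finset ℕ := (univ : Finset (Fin k)).image (fun a => h a.succ)

open Classical in
/-- the patterns such that `φ_j(T)` occurs in `(N, 2 N]` for all `u ≤ U`, all `ρ < u`, all `j` and all nonempty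
`T ⊆ {h 1, ..., h k}` -/
noncomputable def good {L : ℕ} (k U : ℕ) (σ : ℤ) (q a r : ℕ) (w : ℝ) (l B N : ℕ) (φ : Fin L → ℕ → ℤ) (X : ℕ) :
    Finset (Fin (k + 1) → ℕ) :=
  (patterns k σ X).filter (fun h => ∀ u ρ : ℕ, 1 ≤ u → u ≤ U → ρ < u → ∀ j, ∀ T ⊆ points h, T.Nonempty →
    Occurs u ρ q a r w l B N (T.image (φ j)))

theorem nonzero (n : ℤ) : n ^ 2 + n + 1 ≠ 0 := by
  intro h
  nlinarith [sq_nonneg (2 * n + 1)]

/-- **Primes with index in any class modulo `u ≤ U` and almost prime `p ^ 2 + p + 1` in every interval `(N, 2 N]`, in all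
the images of a positive proportion of the patterns made of shifted primes.** The constants `c₁`, `C`, `δ`, `r` and the
bound for `X` do not depend on the maps `φ`. -/
theorem result (k L U q a : ℕ) (hq : Squarefree q) (ha : IsCoprime ((a : ℤ) * ((a : ℤ) ^ 2 + a + 1)) (q : ℤ)) (σ : ℤ)
    (hσ : σ = 0 ∨ σ = 1 ∨ σ = -1) :
    ∃ (c₁ C δ : ℝ) (r : ℕ), 0 < c₁ ∧ 0 < δ ∧ ∃ X₀ : ℕ, ∀ X : ℕ, X₀ ≤ X →
      ((patterns k σ X).card : ℝ) ≤ C * ((X : ℝ) ^ k / Real.log X ^ edges k σ) ∧
      ∀ φ : Fin L → ℕ → ℤ, (∀ j, Set.InjOn (φ j) (Set.Iic X)) → ∀ l : ℕ, ∃ B N₀ : ℕ, ∀ N : ℕ, N₀ ≤ N →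
        c₁ * ((X : ℝ) ^ k / Real.log X ^ edges k σ) ≤ ((good k U σ q a r ((N : ℝ) ^ δ) l B N φ X).card : ℝ) := by
  classical
  have hev : ∀ n : ℤ, (Polynomial.X ^ 2 + Polynomial.X + 1 : Polynomial ℤ).eval n = n ^ 2 + n + 1 := fun n => by
    simp
  obtain ⟨c₁, C, δ, r, hc1, hδ, h⟩ := Pool.Agent.U288.RO.Nx.fin_idx (Polynomial.X ^ 2 + Polynomial.X + 1)
    (fun n _ => by rw [hev]; exact nonzero n)
    (fun p hp => by
      by_contra hcon
      push Not at hcon
      have h1 := hcon 1
      have h2 := hcon 2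
      rw [hev] at h1 h2
      norm_num at h1 h2
      have h3 : (p : ℤ) ∣ 1 := by
        have h4 := dvd_add (h1.mul_left (5)) (h2.mul_left (-1))
        norm_num at h4
        exact_mod_cast h4
      exact hp.one_lt.ne' (Nat.dvd_one.1 (by exact_mod_cast h3))) q a hq (fun p hp hpq => by
      rw [hev]
      exact Pool.Agent.R498.MP.cop_to _ q ha p hp hpq) k L U σ hσ
  obtain ⟨X₀, h⟩ := eventually_atTop.1 h
  refine ⟨c₁, C, δ, r, hc1, hδ, X₀, fun X hX => ?_⟩
  obtain ⟨h1, h2⟩ := h X hX
  have e : (Pool.Agent.U288.SP.shifts (fun _ _ : Fin (k + 1) => σ) X) = patterns k σ X := by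
    unfold Pool.Agent.U288.SP.shifts patterns
    congr!
  rw [e] at h1 h2
  refine ⟨h1, fun φ hφ l => ?_⟩
  obtain ⟨B, hB⟩ := h2 φ hφ l
  obtain ⟨N₀, hB⟩ := eventually_atTop.1 hB
  refine ⟨B, N₀, fun N hN => (hB N hN).trans ?_⟩
  rw [Nat.cast_le]
  apply card_le_card
  intro z hz
  rw [mem_filter] at hz
  unfold good
  rw [mem_filter]
  refine ⟨hz.1, fun u ρ hu1 hu2 hρ j T hT hTn => ?_⟩
  obtain ⟨m, d, he1, he2, he3⟩ := hz.2 u ρ hu1 hu2 hρ j T hT hTn
  refine ⟨m, d, he1, he2, fun i hi => ?_⟩
  obtain ⟨g1, g2⟩ := he3 i hi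
  refine ⟨fun y hy => ?_, g2⟩
  obtain ⟨g3, g4, g5, -, g6, g7⟩ := g1 y hy
  rw [hev] at g6 g7
  exact ⟨g3, g4, g5, g6, g7⟩

end Pool.Agent.Results.MP_82233c_nt.ImagesInEveryInterval
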