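import Pool.Agent.Y677.RSZ.FinInst

/-!
# Primes `p` with `p ^ 2 + p + 1` prime or almost prime: progressions with logarithmic differences

Let `f = a x ^ 2 + b x + c`, `a > 0`, be an irreducible quadratic polynomial without a fixed prime
divisor of `p f(p)`, for instance `f = x ^ 2 + x + 1`, the polynomial of the question. Let `θ > 0`
be arbitrarily small and `r ≥ r₀(θ)`.

In EVERY set `A` of integers `m` of an interval `(X, X + Y]`, `X ^ θ ≤ Y ≤ X`, such that `m` and
`f(m)` have no prime factors `≤ m ^ (1 / r)`, all but `ε Y / (log X) ^ 2` elements are terms of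
`l`-term arithmetic progressions of elements of `A` with differences `≤ (log X) ^ B`, where `B`
depends on `l` and `ε`, not on `A`. In particular this holds for all subsets of the set of the
question, the primes `p` with `f(p)` prime, and of the set of the primes `p` for which `f(p)` is a
product of at most `r` primes `> p ^ (1 / r)`; the latter have the right order of magnitude, and each
of their subsets of positive relative density contains such progressions.

The theorem on rough values of systems of polynomials (`Pool.Agent.Y677.RSZ`) is from the starting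
files.
-/

set_option autoImplicit false

namespace Pool.Agent.Results.MP_82233c_nt.NarrowProgressions

open Finset Filter

/-- `f(m) = a m ^ 2 + b m + c` -/
def val (a b c : ℤ) (m : ℕ) : ℤ := a * (m : ℤ) ^ 2 + b * m + c

/-- `f = a x ^ 2 + b x + c` has positive leading coefficient, coprime coefficients, its discriminant
is not a square, and for no prime `p` all the values `m f(m)` are divisible by `p` -/
structure Admissible (a b c : ℤ) : Prop where
  pos : 0 < a
  prim : ∀ p : ℕ, p.Prime → ¬ ((p : ℤ) ∣ a ∧ (p : ℤ) ∣ b ∧ (p : ℤ) ∣ c)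
  disc : ¬ IsSquare (b ^ 2 - 4 * a * c)
  loc : ∀ p : ℕ, p.Prime → ∃ m : ℕ, ¬ p ∣ m ∧ ¬ (p : ℤ) ∣ val a b c m

/-- `m` and `f(m)` have no prime factors `≤ m ^ (1 / r)` -/
def Rough (a b c : ℤ) (r m : ℕ) : Prop :=
  (∀ p : ℕ, p.Prime → p ∣ m → (m : ℝ) ^ (1 / (r : ℝ)) < p) ∧
    ∀ p : ℕ, p.Prime → (p : ℤ) ∣ val a b c m → (m : ℝ) ^ (1 / (r : ℝ)) < p

open Classical in
/-- the elements of `A` which are not terms of an `l`-term arithmetic progression of elements of `A`
with difference `≤ D` -/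
noncomputable def Outside (A : Finset ℕ) (l : ℕ) (D : ℝ) : Finset ℕ :=
  A.filter fun q => ¬ ∃ u v : ℕ, 1 ≤ v ∧ (v : ℝ) ≤ D ∧ (∀ j < l, u + j * v ∈ A) ∧
    ∃ j < l, q = u + j * v

open Classical in
/-- the primes `p` of `(X, Z]` for which `f(p)` is, up to the sign, a product of at most `r` primes,
all of them `> p ^ (1 / r)` -/
noncomputable def AlmostPrimes (a b c : ℤ) (r X Z : ℕ) : Finset ℕ :=
  (Ioc X Z).filter fun p => p.Prime ∧ Rough a b c r p ∧
    (val a b c p).natAbs.primeFactorsList.length ≤ r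

open Classical in
/-- the primes `p` of `(X, Z]` for which `f(p)` is prime -/
noncomputable def Primes (a b c : ℤ) (X Z : ℕ) : Finset ℕ :=
  (Ioc X Z).filter fun p => p.Prime ∧ ∃ q : ℕ, q.Prime ∧ val a b c p = q

/-- the polynomial of the question -/
theorem admissible_one : Admissible 1 1 1 := by
  refine ⟨one_pos, fun p hp h => ?_, ?_, fun p hp => ?_⟩
  · have h1 : p ∣ 1 := by exact_mod_cast h.1
    exact hp.one_lt.ne' (Nat.dvd_one.1 h1)
  · rintro ⟨s, hs⟩
    nlinarith [mul_self_nonneg s]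
  · by_cases h3 : p = 3
    · subst h3
      exact ⟨2, by norm_num, by norm_num [val]⟩
    · refine ⟨1, fun h => hp.one_lt.ne' (Nat.dvd_one.1 h), fun h => h3 ?_⟩
      have h1 : (p : ℤ) ∣ ((3 : ℕ) : ℤ) := by
        have : val 1 1 1 1 = ((3 : ℕ) : ℤ) := by norm_num [val]
        rwa [this] at h
      exact (Nat.prime_dvd_prime_iff_eq hp Nat.prime_three).1 (Int.natCast_dvd_natCast.1 h1)

theorem rpow_lt_self {q r : ℕ} (hq : 2 ≤ q) (hr : 2 ≤ r) : (q : ℝ) ^ (1 / (r : ℝ)) < q := by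
  have hq1 : (1 : ℝ) < q := by exact_mod_cast hq
  have hr1 : (1 : ℝ) < r := by exact_mod_cast hr
  have h1 : 1 / (r : ℝ) < 1 := by
    rw [div_lt_one (by linarith)]
    exact hr1
  calc (q : ℝ) ^ (1 / (r : ℝ)) < (q : ℝ) ^ (1 : ℝ) := Real.rpow_lt_rpow_of_exponent_lt hq1 h1
    _ = q := Real.rpow_one _

/-- the primes with prime values are rough -/
theorem rough_of_primes {a b c : ℤ} (ha : 0 < a) (r : ℕ) (hr : 2 ≤ r) :
    ∀ᶠ X : ℕ in atTop, ∀ Z : ℕ, ∀ q ∈ Primes a b c X Z, Rough a b c r q := by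
  classical
  filter_upwards [eventually_ge_atTop (2 + b.natAbs + c.natAbs)] with X hX Z q hq
  have hq' := (@mem_filter _ _ (_) _ _).1 hq
  obtain ⟨hq1, hqp, p', hp', he⟩ := hq'
  rw [mem_Ioc] at hq1
  refine ⟨fun p hp hpq => ?_, fun p hp hpq => ?_⟩
  · have : p = q := (Nat.prime_dvd_prime_iff_eq hp hqp).1 hpq
    rw [this]
    exact rpow_lt_self hqp.two_le hr
  · rw [he] at hpq
    have : p = p' := (Nat.prime_dvd_prime_iff_eq hp hp').1 (Int.natCast_dvd_natCast.1 hpq)
    rw [this]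
    refine (rpow_lt_self hqp.two_le hr).trans_le ?_
    have h2 : (q : ℤ) ≤ p' := by
      rw [← he]
      unfold val
      have h3 : (1 : ℤ) ≤ a := ha
      have h4 : (2 : ℤ) + |b| + |c| ≤ q := by
        have : (2 + b.natAbs + c.natAbs : ℕ) ≤ q := by omega
        have h5 : ((2 + b.natAbs + c.natAbs : ℕ) : ℤ) ≤ q := by exact_mod_cast this
        push_cast at h5
        exact h5
      have h5 : -|b| ≤ b := neg_abs_le b
      have h6 : -|c| ≤ c := neg_abs_le c
      have h7 : 0 ≤ |b| := abs_nonneg b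
      have h8 : 0 ≤ |c| := abs_nonneg c
      have h9 : (q : ℤ) ^ 2 ≤ a * (q : ℤ) ^ 2 := by nlinarith [sq_nonneg (q : ℤ)]
      have h10 : -|b| * (q : ℤ) ≤ b * q := by nlinarith
      have h11 : (q : ℤ) * (2 + |b| + |c|) ≤ q * q := by nlinarith
      have h12 : |c| ≤ q * |c| := by nlinarith
      nlinarith
    exact_mod_cast h2

/-- Let `f = a x ^ 2 + b x + c` be admissible, for instance `x ^ 2 + x + 1`; let `0 < θ ≤ 1`. -/
theorem result :
    Admissible 1 1 1 ∧
    ∀ a b c : ℤ, Admissible a b c →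
      ∀ θ : ℝ, 0 < θ → θ ≤ 1 → ∃ r₀ : ℕ, 2 ≤ r₀ ∧ ∀ r : ℕ, r₀ ≤ r →
        -- (1) the right order of magnitude for almost primes
        (∃ κ : ℝ, 0 < κ ∧ ∀ᶠ X : ℕ in atTop,
          κ * X / Real.log X ^ 2 ≤ ((AlmostPrimes a b c r X (2 * X)).card : ℝ)) ∧
        ∀ l : ℕ, 2 ≤ l →
          -- (2) arbitrary sets of rough arguments, and (3) primes, in short intervals
          (∀ ε : ℝ, 0 < ε → ∃ B : ℕ, ∀ᶠ X : ℕ in atTop, ∀ Y : ℕ, (X : ℝ) ^ θ ≤ Y → Y ≤ X →
            (∀ A ⊆ Ioc X (X + Y), (∀ q ∈ A, Rough a b c r q) →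
              ((Outside A l (Real.log X ^ B)).card : ℝ) ≤ ε * Y / Real.log X ^ 2) ∧
            ∀ A ⊆ Primes a b c X (X + Y),
              ((Outside A l (Real.log X ^ B)).card : ℝ) ≤ ε * Y / Real.log X ^ 2) ∧
          -- (4) subsets of the almost primes of positive relative density
          ∀ η : ℝ, 0 < η → ∃ B : ℕ, ∀ᶠ X : ℕ in atTop, ∀ A ⊆ AlmostPrimes a b c r X (2 * X),
            η * (AlmostPrimes a b c r X (2 * X)).card ≤ (A.card : ℝ) →
            ∃ u v : ℕ, 1 ≤ v ∧ (v : ℝ) ≤ Real.log X ^ B ∧ ∀ j < l, u + j * v ∈ A := by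
  classical
  refine ⟨admissible_one, fun a b c hadm θ hθ hθ1 => ?_⟩
  obtain ⟨r₀, hr₀, H⟩ := Pool.Agent.Y677.RSZ.narrow_quad_prime a b c hadm.pos hadm.prim
    hadm.disc hadm.loc
    (fun r => {m | Rough a b c r m})
    (fun r => {m | m.Prime ∧ Rough a b c r m ∧ (val a b c m).natAbs.primeFactorsList.length ≤ r})
    (fun r m _ hm => ⟨hm.1, fun p hp hpd => hm.2 p hp hpd⟩)
    (fun r m hr hm h1 h2 => ⟨hm, ⟨fun p hp hpm => by
      rw [(Nat.prime_dvd_prime_iff_eq hp hm).1 hpm]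
      exact rpow_lt_self hm.two_le hr, fun p hp hpd => h1 p hp hpd⟩, h2⟩) θ hθ hθ1
  refine ⟨r₀, hr₀, fun r hr => ?_⟩
  obtain ⟨⟨κ, hκ, H1⟩, H2⟩ := H r hr
  have H1' : ∀ᶠ X : ℕ in atTop,
      κ * X / Real.log X ^ 2 ≤ ((AlmostPrimes a b c r X (2 * X)).card : ℝ) := by
    filter_upwards [H1] with X hX
    refine hX.trans (Nat.cast_le.2 (card_le_card fun q hq => ?_))
    have hq' := (@mem_filter _ _ (_) _ _).1 hq
    exact (@mem_filter _ _ (_) _ _).2 hq'
  -- the exceptional elements of a finite set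
  have key : ∀ l : ℕ, 2 ≤ l → ∀ ε : ℝ, 0 < ε → ∃ B : ℕ, ∀ᶠ X : ℕ in atTop, ∀ Y : ℕ,
      (X : ℝ) ^ θ ≤ Y → Y ≤ X → ∀ A ⊆ Ioc X (X + Y), (∀ q ∈ A, Rough a b c r q) →
        ((Outside A l (Real.log X ^ B)).card : ℝ) ≤ ε * Y / Real.log X ^ 2 := by
    intro l hl ε hε
    obtain ⟨B, hB⟩ := H2 l hl ε hε
    refine ⟨B, ?_⟩
    filter_upwards [hB] with X hX Y hY1 hY2 A hA hAR
    refine le_trans ?_ (hX Y hY1 hY2 (A : Set ℕ) (fun q hq => hAR q hq))
    unfold Pool.Agent.TH977.PW.N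
    refine Nat.cast_le.2 (card_le_card ?_)
    intro q hq
    unfold Outside at hq
    rw [mem_filter] at hq
    rw [mem_filter]
    refine ⟨hA hq.1, hq.1, ?_⟩
    rintro ⟨u, v, h1, h2, h3, h4⟩
    exact hq.2 ⟨u, v, h1, h2, fun j hj => (h3 j hj).1, h4⟩
  refine ⟨⟨κ, hκ, H1'⟩, fun l hl => ⟨fun ε hε => ?_, fun η hη => ?_⟩⟩
  · obtain ⟨B, hB⟩ := key l hl ε hε
    refine ⟨B, ?_⟩
    filter_upwards [hB, rough_of_primes (b := b) (c := c) hadm.pos r (by omega)] with
      X hX hX2 Y hY1 hY2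
    refine ⟨hX Y hY1 hY2, fun A hA => hX Y hY1 hY2 A (fun q hq => ?_) fun q hq => ?_⟩
    · exact ((@mem_filter _ _ (_) _ _).1 (hA hq)).1
    · exact hX2 _ q (hA hq)
  · obtain ⟨B, hB⟩ := key l hl (η * κ / 2) (by positivity)
    refine ⟨B, ?_⟩
    filter_upwards [hB, H1', eventually_ge_atTop 3] with X hX hX1 hX3 A hA hAc
    have hXr : (3 : ℝ) ≤ X := by exact_mod_cast hX3
    have hlog : 0 < Real.log X := Real.log_pos (by linarith)
    have h1 : (X : ℝ) ^ θ ≤ ((X : ℕ) : ℝ) := by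
      calc (X : ℝ) ^ θ ≤ (X : ℝ) ^ (1 : ℝ) := Real.rpow_le_rpow_of_exponent_le (by linarith) hθ1
        _ = X := Real.rpow_one _
    have hA2 : ∀ q ∈ A, q ∈ Ioc X (2 * X) ∧ Rough a b c r q := by
      intro q hq
      have := (@mem_filter _ _ (_) _ _).1 (hA hq)
      exact ⟨this.1, this.2.2.1⟩
    have h2 := hX X h1 le_rfl A (fun q hq => by rw [← two_mul]; exact (hA2 q hq).1)
      fun q hq => (hA2 q hq).2
    have hpos : 0 < κ * X / Real.log X ^ 2 := by positivity
    have h3 : ((Outside A l (Real.log X ^ B)).card : ℝ) < (A.card : ℝ) := by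
      have h4 : η * (κ * X / Real.log X ^ 2) ≤ A.card :=
        (mul_le_mul_of_nonneg_left hX1 hη.le).trans hAc
      have h5 : η * κ / 2 * X / Real.log X ^ 2 =
          η * (κ * X / Real.log X ^ 2) / 2 := by ring
      rw [h5] at h2
      have h6 : 0 < η * (κ * X / Real.log X ^ 2) := by positivity
      linarith
    have h4 : (Outside A l (Real.log X ^ B)).card < A.card := by exact_mod_cast h3
    obtain ⟨q, hq, hq2⟩ : ∃ q ∈ A, q ∉ Outside A l (Real.log X ^ B) := by
      by_contra hcon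
      push Not at hcon
      exact absurd (card_le_card hcon) (not_le.2 h4)
    unfold Outside at hq2
    rw [mem_filter, not_and, not_not] at hq2
    obtain ⟨u, v, h5, h6, h7, -⟩ := hq2 hq
    exact ⟨u, v, h5, h6, h7⟩

end Pool.Agent.Results.MP_82233c_nt.NarrowProgressions
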