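import Pool.Agent.U832.RG.Mix
import Pool.Agent.U832.RG.FixedPrime
import Pool.Agent.U832.RH.GeF

/-!
# The primes `p` for which `p ^ 2 + p + 1` is almost prime, and the process around them

Let `S` be the set of the `n` for which neither `n` nor `n ^ 2 + n + 1` has a prime factor `≤ x ^ (1 / r)`. Around the PRIMES in
`S`, that is around the primes `p` for which `p ^ 2 + p + 1` has no prime factor `≤ x ^ (1 / r)`, the elements of `S` form a
Poisson process: the numbers of elements of `S` in disjoint windows are independent Poisson variables. The same holds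
around arbitrary elements of `S`, around arbitrary integers, and around the `n` for which `n (n ^ 2 + n + 1)` has at most `R`
prime factors, all `> x ^ w` (`R` and `w` do not depend on the windows), there in all intervals of length `≥ x ^ θ`.
-/

set_option autoImplicit false

namespace Pool.Agent.Results.MP_82233c_nt.PoissonProcess

open Finset Filter Pool.Agent.U832.RG Pool.Agent.U832.RH

/-- The product of the numbers `n` and `n ^ 2 + n + 1`. -/
def values (n : ℕ) : ℕ := n * (n ^ 2 + n + 1)

section aux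

open Polynomial
open Pool.Agent.W123.RU.Poly (Sys)

/-- the system -/
noncomputable def F : Fin 2 → ℤ[X] := mix 1 1 (1)

lemma sys : Sys F := by
  apply mix_sys 1 1 (1) (by norm_num)
  · intro p hp h
    have h2 : p ∣ 1 := by exact_mod_cast h.1
    exact hp.one_lt.ne' (Nat.dvd_one.1 h2)
  · intro h
    obtain ⟨r, hr⟩ := h
    have h1 : r < 7 := by nlinarith
    have h2 : -7 < r := by nlinarith
    interval_cases r <;> omega
  · intro p hp
    by_cases h3 : p = 3
    · refine ⟨2, ?_, ?_⟩ <;> subst h3 <;> norm_num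
    · refine ⟨1, fun hi => ?_, fun hi => ?_⟩
      · have h4 : p ∣ 1 := by exact_mod_cast hi
        exact hp.one_lt.ne' (Nat.dvd_one.1 h4)
      · have h4 : (p : ℤ) ∣ 3 := by
          norm_num at hi
          exact hi
        have h5 : p ∣ 3 := by exact_mod_cast h4
        exact h3 ((Nat.prime_dvd_prime_iff_eq hp (by norm_num)).1 h5)

lemma noshift : NoShift F := mix_noshift 1 1 (1) (by norm_num)

lemma g_eq (n : ℕ) : (values n : ℤ) = ∏ i, (F i).eval (n : ℤ) := by
  rw [Fin.prod_univ_two]
  show (values n : ℤ) = (X : ℤ[X]).eval (n : ℤ) * (Pool.Agent.TH464.PW.quad 1 1 (1)).eval (n : ℤ)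
  rw [quad_eval, eval_X]
  unfold values
  push_cast
  ring

lemma base : ∃ i, ∀ n : ℕ, (F i).eval (n : ℤ) = n := by
  refine ⟨0, fun n => ?_⟩
  show (X : ℤ[X]).eval (n : ℤ) = n
  rw [eval_X]

lemma g_le : ∀ᶠ x : ℕ in atTop, ∀ n ≤ x, values n ≤ x ^ 4 := by
  filter_upwards [eventually_ge_atTop 3] with x hx n hn
  unfold values
  have h1 : n ^ 2 ≤ x ^ 2 := Nat.pow_le_pow_left hn 2
  have h2 : x ≤ x ^ 2 := Nat.le_self_pow (by norm_num) _
  calc n * (n ^ 2 + n + 1) ≤ x * (3 * x ^ 2) := Nat.mul_le_mul hn (by omega)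
    _ ≤ x * (x * x ^ 2) := Nat.mul_le_mul_left _ (Nat.mul_le_mul_right _ hx)
    _ = x ^ 4 := by ring

end aux

/-- Let `θ, η > 0`, `0 < δ ≤ 1`. There are `w > 0` and `R`, such that for all `J`, `L`, `x₀`, all `ε > 0` and all large
`r`: for all large `x`, with `y = ⌊x ^ (1 / r)⌋`, `z = ⌊x ^ w⌋`, and all `T` with `T V ≤ x₀`, `V = V values y`, the set
`Rough values y` of the `n` for which neither `n` nor `n ^ 2 + n + 1` has a prime factor `≤ y` satisfies:
(1) `PrimeLaw` for all `X ≥ x ^ θ` and all `(Z, Z + Y]` with `δ X ≤ Z`, `δ X ≤ Y`, `Z + Y ≤ X`: for all disjoint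
windows `(a j, b j] ⊆ (0, T]`, `j < J`, all `s ≤ T` outside of them and all `k j ≤ L`, the number of the `n` in
`(Z, Z + Y]` for which `n + s` is a PRIME in `Rough values y` and exactly `k j` elements of `Rough values y` lie in
`(n + a j, n + b j]` for all `j` is `Y V / (mertens y * log X) Π` up to `ε Y V / (mertens y * log X)`, where `Π` is the
product of the probabilities that a Poisson variable of mean `(b j - a j) V` has the value `k j`. (For `J = 0` this
is the number of the primes `p` for which `p ^ 2 + p + 1` has no prime factor `≤ y`.)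
(2) `PoissonLaw` for ALL intervals `(Z, Z + Y]` with `Y ≥ x ^ θ`: the same for arbitrary elements `n + s` of
`Rough values y`, with `Y V` instead of `Y V / (mertens y * log X)`, and for arbitrary integers `n`, with `Y`.
(3) `CentreLaw` if moreover `Z + Y + T ≤ x`: the number of the `n` in `(Z, Z + Y]` for which `n + s` is in
`Almost values R z` (the product of `n + s` and the other value at `n + s` has at most `R` prime factors, all `> z`),
with the same windows, is `Y W Π` up to `(η Π + ε) Y W`, `W = V values z`. -/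
theorem result (θ δ η : ℝ) (hθ : 0 < θ) (hδ : 0 < δ) (hδ1 : δ ≤ 1) (hη : 0 < η) :
    ∃ w : ℝ, 0 < w ∧ ∃ R : ℕ, ∀ (J L : ℕ) (x₀ ε : ℝ), 0 < ε → ∃ r₀ : ℕ, ∀ r : ℕ, r₀ ≤ r → ∀ᶠ x : ℕ in atTop,
      ∀ y z : ℕ, y = ⌊(x : ℝ) ^ (1 / (r : ℝ))⌋₊ → z = ⌊(x : ℝ) ^ w⌋₊ → ∀ T : ℕ, T * V values y ≤ x₀ →
        (∀ X Z Y : ℕ, (x : ℝ) ^ θ ≤ X → δ * X ≤ Z → δ * X ≤ Y → Z + Y ≤ X →
          PrimeLaw (Rough values y) (V values y) y J L ε X Z Y T) ∧
        ∀ Z Y : ℕ, (x : ℝ) ^ θ ≤ Y → PoissonLaw (Rough values y) (V values y) J L ε Z Y T ∧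
          (Z + Y + T ≤ x →
            CentreLaw (Almost values R z) (Rough values y) (V values z) (V values y) J L η ε Z Y T) :=
  fixed_primeG F sys (by norm_num) noshift base values g_eq 4 g_le θ δ η hθ hδ hδ1 hη

end Pool.Agent.Results.MP_82233c_nt.PoissonProcess
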